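import Pool.Agent.Y748.SR.Stm4

/-!
Test functions against the pair correlation function (job SR-MONT of helper748).
-/

open Finset Filter Topology MeasureTheory

set_option autoImplicit false

namespace Pool.Agent.Y514.SR

open Pool.Agent.Y748 Pool.Agent.Y748.SR

lemma rr_cont {R : ℝ → ℝ} (hR : Continuous R) : Continuous (rr R) := by
  unfold rr
  refine intervalIntegral.continuous_parametric_intervalIntegral_of_continuous' ?_ _ _
  fun_prop

lemma cut_cont (K : ℕ) : Continuous (cut K) := by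
  unfold cut
  fun_prop

lemma cut_nonneg (K : ℕ) (v : ℝ) : 0 ≤ cut K v := le_max_left _ _

lemma cut_le (K : ℕ) (v : ℝ) : cut K v ≤ 1 := max_le zero_le_one (min_le_left _ _)

lemma cut_one {K : ℕ} {v : ℝ} (h : |v| ≤ K) : cut K v = 1 := by
  unfold cut
  rw [min_eq_left (by linarith), max_eq_right zero_le_one]

lemma cut_zero {K : ℕ} {v : ℝ} (h : (K : ℝ) + 1 ≤ |v|) : cut K v = 0 := by
  unfold cut
  exact max_eq_left ((min_le_right _ _).trans (by linarith))

theorem t_MONT : S_ML → S_BLK2 → S_DYA → Pool.Agent.Y748.SR.S_MONT := by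
  intro hML hBLK hDYA γ NZ hB I l hl N hN h hhc hhe hh0 hh2 hcorr R κ hκ0 hκ1 hR
  obtain ⟨A, hA⟩ := hR.decay
  have hA0 : 0 ≤ A := by
    have h1 := (abs_nonneg _).trans (hA 0)
    simpa using h1
  have hrc : Continuous (rr R) := rr_cont hR.cont
  have hrA : ∀ x, |rr R x| ≤ A := fun x => (hA x).trans (div_le_self hA0 (by nlinarith [sq_nonneg x]))
  obtain ⟨C, hC0, hC⟩ := hBLK γ NZ hB R κ hκ0 hκ1 hR
  set f : ℕ → ℝ → ℝ := fun K v => rr R v * cut K v with hf
  have hfc : ∀ K, Continuous (f K) := fun K => hrc.mul (cut_cont K)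
  have hfz : ∀ K : ℕ, ∀ v : ℝ, ((K : ℝ) + 1) ≤ |v| → f K v = 0 := by
    intro K v hv
    simp only [hf, cut_zero hv, mul_zero]
  have hfle : ∀ (K : ℕ) (v : ℝ), |f K v| ≤ |rr R v| := by
    intro K v
    simp only [hf]
    rw [abs_mul, abs_of_nonneg (cut_nonneg K v)]
    exact mul_le_of_le_one_right (abs_nonneg _) (cut_le K v)
  have hf0 : ∀ K : ℕ, f K 0 = rr R 0 := by
    intro K
    simp only [hf]
    rw [cut_one (by simp), mul_one]
  have hfcs : ∀ K : ℕ, HasCompactSupport (f K) := by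
    intro K
    refine HasCompactSupport.intro (isCompact_Icc (a := -((K : ℝ) + 1)) (b := (K : ℝ) + 1)) ?_
    intro v hv
    apply hfz K v
    by_contra hcon
    rw [not_le] at hcon
    exact hv ⟨(abs_lt.1 hcon).1.le, (abs_lt.1 hcon).2.le⟩
  have key : ∀ K : ℕ, 1 ≤ K → |(∫ v, f K v * h v) - (mt R - rr R 0)| ≤ C / K := by
    intro K hK
    have hKpos : (0 : ℝ) < K := by exact_mod_cast hK
    have hCK : 0 ≤ C / K := div_nonneg hC0 hKpos.le
    refine le_of_forall_pos_le_add fun ε hε => ?_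
    have hlim := hML (fun n => nrm (γ n)) hB.sq I l N hN h hhc hhe hh0 hcorr (f K) (hfc K) (hfcs K)
    have hd := hDYA γ NZ hB (f K) (mt R) (ε / 2 + C / K) ((K : ℝ) + 1) A (by positivity) (hfc K)
      (hfz K) (fun v => (hfle K v).trans (hrA v)) (hC K hK (ε / 2) (by positivity)) (ε / 2)
      (by positivity)
    rw [hf0 K] at hd
    have hd2 := hN.eventually hd
    have hlim2 := (hlim.sub_const (mt R - rr R 0)).abs
    refine le_of_tendsto hlim2 ?_
    filter_upwards [hd2] with j hj
    refine hj.trans ?_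
    linarith
  have hdom : Tendsto (fun K : ℕ => ∫ v, f K v * h v) atTop (𝓝 (∫ v, rr R v * h v)) := by
    refine tendsto_integral_of_dominated_convergence (fun v => 2 * A * (1 + v ^ 2)⁻¹) ?_ ?_ ?_ ?_
    · intro K
      exact ((hfc K).mul hhc).aestronglyMeasurable
    · exact integrable_inv_one_add_sq.const_mul _
    · intro K
      refine Eventually.of_forall fun v => ?_
      rw [Real.norm_eq_abs, abs_mul, abs_of_nonneg (hh0 v)]
      calc |f K v| * h v ≤ (A / (1 + v ^ 2)) * 2 :=
            mul_le_mul ((hfle K v).trans (hA v)) (hh2 v) (hh0 v) (by positivity)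
        _ = 2 * A * (1 + v ^ 2)⁻¹ := by ring
    · refine Eventually.of_forall fun v => ?_
      refine tendsto_const_nhds.congr' ?_
      obtain ⟨K0, hK0⟩ := exists_nat_ge |v|
      filter_upwards [eventually_ge_atTop K0] with K hK
      have : |v| ≤ K := hK0.trans (by exact_mod_cast hK)
      simp only [hf]
      rw [cut_one this, mul_one]
  have h1 : Tendsto (fun K : ℕ => |(∫ v, f K v * h v) - (mt R - rr R 0)|) atTop
      (𝓝 |(∫ v, rr R v * h v) - (mt R - rr R 0)|) := (hdom.sub_const _).abs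
  have h2 : Tendsto (fun K : ℕ => C / (K : ℝ)) atTop (𝓝 0) := tendsto_const_div_atTop_nhds_zero_nat C
  have h3 : |(∫ v, rr R v * h v) - (mt R - rr R 0)| ≤ 0 := by
    refine le_of_tendsto_of_tendsto h1 h2 ?_
    filter_upwards [eventually_ge_atTop 1] with K hK
    exact key K hK
  exact sub_eq_zero.1 (abs_nonpos_iff.1 h3)

end Pool.Agent.Y514.SR
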